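import Pool.Agent.Helper37.PaintCert

set_option autoImplicit false

/-!
A finite graph that is (3,1)-paintable but not (6,2)-paintable.
-/

namespace Pool.Agent.Results.MP_d32fcc_co.TwofoldFails

open Pool.Agent.Helper37.Paint

/-- Painter wins the painting game on `G` from the position in which every vertex `v` has `t v`
tokens and still needs `n v` colours. This is the least relation `W` such that `W t n` holds
whenever no vertex needs more colours than it has tokens and Painter can answer every nonempty
set `M` of vertices that still need colours, presented by Lister, by an independent subset `I`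
of `M` such that `W` holds after each vertex of `M` has lost a token and each vertex of `I` has
got a colour. -/
def PainterWins {V : Type} (G : SimpleGraph V) (t n : V → ℕ) : Prop :=
  ∀ W : (V → ℕ) → (V → ℕ) → Prop,
    (∀ t n : V → ℕ, (∀ v, n v ≤ t v) →
      (∀ M : Set V, M.Nonempty → (∀ v ∈ M, 0 < n v) →
        ∃ I ⊆ M, G.IsIndepSet I ∧
          W (t - M.indicator (fun _ => (1 : ℕ))) (n - I.indicator (fun _ => (1 : ℕ)))) →
      W t n) →
    W t n

/-- `G` is `(a, b)`-paintable. -/
def Paintable {V : Type} (G : SimpleGraph V) (a b : ℕ) : Prop :=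
  PainterWins G (fun _ => a) (fun _ => b)

/-- There is a finite graph that is `(3, 1)`-paintable but not `(6, 2)`-paintable. -/
theorem result : ∃ (V : Type) (_ : Fintype V) (G : SimpleGraph V),
    Paintable G 3 1 ∧ ¬ Paintable G 6 2 := by
  have hloop : ∀ v : Fin 7, (gAdj.getD v 0).testBit v = false := by decide
  have h1 : PW (gr 7 gAdj) (fun v => gF.getD v 0) (fun _ => 1) := by
    refine pCheck_sound gP_ok [3, 2, 3, 2, 2, 2, 2] (by simp [gP]) _ _ ?_
    intro v
    right
    revert v
    decide
  have h2 : ¬ PW (gr 7 gAdj) (fun v => 2 * gF.getD v 0 + 0) (fun _ => 2) := by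
    refine lCheck_sound gL_ok hloop ([6, 4, 6, 4, 4, 4, 4], [2, 2, 2, 2, 2, 2, 2], 14)
      (by simp [gL]) _ _ ?_ ?_
    · decide
    · decide
  obtain ⟨V, hV, G, hG1, hG2⟩ := exists_uniform 2 0 3 (by norm_num) (by norm_num) 1 (Fin 7)
    (gr 7 gAdj) (fun v => gF.getD v 0) (by decide) (by decide) h1 h2
  exact ⟨V, hV, G, hG1, hG2⟩

end Pool.Agent.Results.MP_d32fcc_co.TwofoldFails
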